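import Pool.Agent.Q267.E8.Stm2

set_option autoImplicit false

/-!
Project E8 (helper267), job PO (helper299).
-/

namespace Pool.Agent.Q299.E8

open Finset Pool.Agent.Q267.CDE Pool.Agent.Q267.MW Pool.Agent.Q267.E8

section

variable (p : ℕ) [hp : Fact p.Prime]

theorem fact_inv (k : ℕ) (hk : k < p) :
    ((k.factorial : ℕ) : R p) * ((k.factorial : ℕ) : R p)⁻¹ = 1 := by
  have h : IsUnit ((k.factorial : ℕ) : R p) := by
    apply isUnit_of_red
    rw [red_nat]
    exact fact_ne p k hk
  exact ZMod.mul_inv_of_unit _ h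

theorem inv_succ (k : ℕ) (hk : k + 1 < p) :
    ((k : R p) + 1) * (((k + 1).factorial : ℕ) : R p)⁻¹ = ((k.factorial : ℕ) : R p)⁻¹ := by
  have h1 := fact_inv p k (by omega)
  have h2 := fact_inv p (k + 1) hk
  rw [Nat.factorial_succ] at h2 ⊢
  push_cast at h2 ⊢
  linear_combination ((k.factorial : ℕ) : R p)⁻¹ * h2 -
    ((k : R p) + 1) * (((k : R p) + 1) * (k.factorial : R p))⁻¹ * h1

theorem bR_zero (x : R p) : bR p x 0 = 1 := by
  unfold bR
  have h1 := fact_inv p 0 hp.out.pos
  rw [Nat.factorial_zero] at h1 ⊢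
  rw [prod_range_zero, one_mul]
  rw [Nat.cast_one, one_mul] at h1
  rw [Nat.cast_one]
  exact h1

theorem bR_succ (x : R p) (k : ℕ) (hk : k + 1 < p) :
    bR p x (k + 1) * ((k : R p) + 1) = bR p x k * (x - k) := by
  unfold bR
  rw [prod_range_succ, ← inv_succ p k hk]
  ring

theorem bR_succ' (x : R p) (k : ℕ) (hk : k + 1 < p) :
    bR p (x + 1) (k + 1) * ((k : R p) + 1) = (x + 1) * bR p x k := by
  unfold bR
  rw [prod_range_succ', ← inv_succ p k hk]
  have h1 : ∏ i ∈ range k, (x + 1 - ((i + 1 : ℕ) : R p)) = ∏ i ∈ range k, (x - (i : R p)) := by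
    refine prod_congr rfl fun i _ => ?_
    push_cast
    ring
  rw [h1]
  push_cast
  ring

theorem unit_succ (k : ℕ) (hk : k + 1 < p) : IsUnit ((k : R p) + 1) := by
  have h := isUnit_nat p (k + 1) (by omega) hk
  push_cast at h
  exact h

theorem bR_pascal (x : R p) (k : ℕ) (hk : k + 1 < p) :
    bR p (x + 1) (k + 1) = bR p x (k + 1) + bR p x k := by
  apply (unit_succ p k hk).mul_right_cancel
  linear_combination bR_succ' p x k hk - bR_succ p x k hk

end

theorem sum_pascal {A : Type} [CommRing A] (k : ℕ) (f : ℕ → A) :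
    ∑ j ∈ range (k + 2), (((k + 1).choose j : ℕ) : A) * f j =
      ∑ j ∈ range (k + 1), ((k.choose j : ℕ) : A) * (f j + f (j + 1)) := by
  rw [sum_range_succ']
  have h1 : ∀ j ∈ range (k + 1), (((k + 1).choose (j + 1) : ℕ) : A) * f (j + 1) =
      ((k.choose j : ℕ) : A) * f (j + 1) + ((k.choose (j + 1) : ℕ) : A) * f (j + 1) := by
    intro j _
    rw [Nat.choose_succ_succ]
    push_cast
    ring
  rw [sum_congr rfl h1, sum_add_distrib]
  have h2 : ∑ j ∈ range (k + 1), ((k.choose (j + 1) : ℕ) : A) * f (j + 1) + f 0 =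
      ∑ j ∈ range (k + 1), ((k.choose j : ℕ) : A) * f j := by
    have h3 := sum_range_succ' (fun j => ((k.choose j : ℕ) : A) * f j) (k + 1)
    have h4 := sum_range_succ (fun j => ((k.choose j : ℕ) : A) * f j) (k + 1)
    rw [h4] at h3
    rw [Nat.choose_succ_self, Nat.choose_zero_right] at h3
    push_cast at h3
    linear_combination -h3
  simp only [mul_add, sum_add_distrib]
  rw [← h2, Nat.choose_zero_right]
  push_cast
  ring

theorem vand (p : ℕ) [hp : Fact p.Prime] (k : ℕ) : ∀ (s : ℕ) (y : R p), k + s < p →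
    ∑ j ∈ range (k + 1), ((k.choose j : ℕ) : R p) * bR p y (j + s) = bR p (y + k) (k + s) := by
  induction k with
  | zero =>
    intro s y _
    rw [sum_range_one, Nat.choose_self, Nat.cast_one, one_mul, Nat.cast_zero, add_zero]
  | succ k ih =>
    intro s y hk
    rw [sum_pascal k (fun j => bR p y (j + s))]
    have h1 : ∀ j ∈ range (k + 1), ((k.choose j : ℕ) : R p) * (bR p y (j + s) + bR p y (j + 1 + s)) =
        ((k.choose j : ℕ) : R p) * bR p (y + 1) (j + (s + 1)) := by
      intro j hj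
      have hj' := mem_range.1 hj
      rw [show j + (s + 1) = (j + s) + 1 by ring, bR_pascal p y (j + s) (by omega),
        show j + 1 + s = j + s + 1 by ring]
      ring
    rw [sum_congr rfl h1, ih (s + 1) (y + 1) (by omega)]
    push_cast
    rw [show k + (s + 1) = k + 1 + s by ring]
    congr 1
    ring

theorem refl_bR (p : ℕ) (n : ℕ) (h : R p) (hh : 2 * h = 1) (k : ℕ) :
    (-1) ^ k * bR p (-n - 3 * h) k = bR p (n + h + k) k := by
  unfold bR
  rw [← mul_assoc]
  congr 1
  rw [← prod_range_reflect (fun i => (n : R p) + h + k - (i : R p)) k, ← card_range k, ← prod_const,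
    card_range, ← prod_mul_distrib]
  refine prod_congr rfl fun i hi => ?_
  have hi' := mem_range.1 hi
  have e : ((k - 1 - i : ℕ) : R p) = (k : R p) - 1 - i := by
    have : k - 1 - i + 1 + i = k := by omega
    have h1 := congrArg (Nat.cast : ℕ → R p) this
    push_cast at h1
    linear_combination h1
  rw [e]
  linear_combination hh

theorem coef (p : ℕ) [hp : Fact p.Prime] (n : ℕ) (h : R p) (hh : 2 * h = 1) (hn : 2 * n + 1 < p) (j : ℕ)
    (hj : j ≤ n) : (((2 * n + 1).choose (2 * j) : ℕ) : R p) * ((j.centralBinom : ℕ) : R p) * (h ^ 2) ^ j =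
      ((n.choose j : ℕ) : R p) * bR p (n + h) j := by
  induction j with
  | zero =>
    rw [bR_zero, Nat.mul_zero, Nat.choose_zero_right, Nat.choose_zero_right, Nat.centralBinom_zero]
    simp
  | succ j ih =>
    have ih := ih (by omega)
    have hu : IsUnit ((j : R p) + 1) := unit_succ p j (by omega)
    have hu2 : IsUnit (2 * (2 * (j : R p) + 1)) := by
      have h1 := isUnit_nat p 2 (by norm_num) (by omega)
      have h2 := isUnit_nat p (2 * j + 1) (by omega) (by omega)
      push_cast at h1 h2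
      exact h1.mul h2
    have a1 := Nat.choose_succ_right_eq (2 * n + 1) (2 * j)
    have a2 := Nat.choose_succ_right_eq (2 * n + 1) (2 * j + 1)
    have a3 := Nat.succ_mul_centralBinom_succ j
    have a4 := Nat.choose_succ_right_eq n j
    have b1 := congrArg (Nat.cast : ℕ → R p) a1
    have b2 := congrArg (Nat.cast : ℕ → R p) a2
    have b3 := congrArg (Nat.cast : ℕ → R p) a3
    have b4 := congrArg (Nat.cast : ℕ → R p) a4
    rw [Nat.cast_mul, Nat.cast_mul, Nat.cast_sub (by omega)] at b1 b2 b4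
    push_cast at b1 b2 b3 b4
    have b5 := bR_succ p (n + h) j (by omega)
    rw [show 2 * (j + 1) = 2 * j + 1 + 1 by ring]
    apply (hu2.mul (hu.mul hu)).mul_right_cancel
    set c0 : R p := (((2 * n + 1).choose (2 * j) : ℕ) : R p)
    set c1 : R p := (((2 * n + 1).choose (2 * j + 1) : ℕ) : R p)
    set c2 : R p := (((2 * n + 1).choose (2 * j + 1 + 1) : ℕ) : R p)
    set B0 : R p := ((j.centralBinom : ℕ) : R p)
    set B1 : R p := (((j + 1).centralBinom : ℕ) : R p)
    set d0 : R p := ((n.choose j : ℕ) : R p)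
    set d1 : R p := ((n.choose (j + 1) : ℕ) : R p)
    set e0 : R p := bR p (n + h) j
    set e1 : R p := bR p (n + h) (j + 1)
    set J : R p := (j : R p)
    set N : R p := (n : R p)
    set H2 : R p := (h ^ 2) ^ j with hH2
    have hpow : (h ^ 2) ^ (j + 1) = H2 * h ^ 2 := by rw [pow_succ]
    rw [hpow]
    linear_combination (2 * J + 1) * (J + 1) * B1 * H2 * h ^ 2 * b2 +
      c1 * (2 * N - 2 * J) * (2 * J + 1) * H2 * h ^ 2 * b3 +
      (2 * N - 2 * J) * (2 * (2 * J + 1)) * B0 * H2 * h ^ 2 * b1 +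
      (2 * N + 1 - 2 * J) * (2 * N - 2 * J) * (2 * (2 * J + 1)) * h ^ 2 * ih +
      d0 * e0 * (2 * (2 * J + 1)) * (N - J) * ((N - J) * (2 * h + 1) + h) * hh -
      2 * (2 * J + 1) * e1 * (J + 1) * b4 - 2 * (2 * J + 1) * d0 * (N - J) * b5

/-- `∑_k C(n,k) C(k,j) = C(n,j) 2^(n-j)` -/
theorem sum_cc (n j : ℕ) (hj : j ≤ n) :
    ∑ k ∈ range (n + 1), n.choose k * k.choose j = n.choose j * 2 ^ (n - j) := by
  obtain ⟨d, rfl⟩ := Nat.exists_eq_add_of_le hj
  rw [show j + d + 1 = j + (d + 1) by ring, sum_range_add, Nat.add_sub_cancel_left]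
  have h1 : ∑ x ∈ range j, (j + d).choose x * x.choose j = 0 :=
    sum_eq_zero fun x hx => by rw [Nat.choose_eq_zero_of_lt (mem_range.1 hx), Nat.mul_zero]
  rw [h1, Nat.zero_add, ← Nat.sum_range_choose, mul_sum]
  refine sum_congr rfl fun i hi => ?_
  have hi' := mem_range.1 hi
  rw [Nat.choose_mul (Nat.le_add_right j i), Nat.add_sub_cancel_left,
    Nat.add_sub_cancel_left]

/-- job PO -/
theorem po : S_PO := by
  intro p n hp h hh hn
  have h1 : ∀ j ∈ range (n + 1), (((2 * n + 1).choose (2 * j) : ℕ) : R p) * ((j.centralBinom : ℕ) : R p) *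
      (h ^ 2) ^ j * 2 ^ (n - j) =
      ∑ k ∈ range (n + 1), ((n.choose k : ℕ) : R p) * (((k.choose j : ℕ) : R p) * bR p (n + h) j) := by
    intro j hj
    have hj' : j ≤ n := Nat.lt_succ_iff.1 (mem_range.1 hj)
    rw [coef p n h hh hn j hj']
    have h2 := congrArg (Nat.cast : ℕ → R p) (sum_cc n j hj')
    push_cast at h2
    have h3 : ∑ k ∈ range (n + 1), ((n.choose k : ℕ) : R p) * (((k.choose j : ℕ) : R p) * bR p (n + h) j) =
        (∑ k ∈ range (n + 1), ((n.choose k : ℕ) : R p) * ((k.choose j : ℕ) : R p)) * bR p (n + h) j := by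
      rw [sum_mul]
      exact sum_congr rfl fun k _ => by ring
    rw [h3, h2]
    ring
  rw [sum_congr rfl h1, sum_comm]
  refine sum_congr rfl fun k hk => ?_
  have hk' : k ≤ n := Nat.lt_succ_iff.1 (mem_range.1 hk)
  rw [← mul_sum]
  have h4 : ∑ j ∈ range (n + 1), ((k.choose j : ℕ) : R p) * bR p (n + h) j =
      ∑ j ∈ range (k + 1), ((k.choose j : ℕ) : R p) * bR p (n + h) (j + 0) := by
    symm
    refine sum_subset (range_mono (by omega)) fun j _ hj => ?_
    rw [Nat.choose_eq_zero_of_lt (by rw [mem_range] at hj; omega), Nat.cast_zero, zero_mul]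
  rw [h4, vand p k 0 _ (by omega), Nat.add_zero, ← refl_bR p n h hh k]
  ring

end Pool.Agent.Q299.E8
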