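import Pool.Agent.Q267.E8.Stm2

set_option autoImplicit false

/-!
Project E8 (helper267), job SN3 (helper299).
-/

namespace Pool.Agent.Q299.E8

open Finset Pool.Agent.Q267.CDE Pool.Agent.Q267.MW Pool.Agent.Q267.E8

theorem sn3_aux (p q : ℕ) [hp : Fact p.Prime] (L : Type) [Field L] [CharP L p] [IsAlgClosed L] (r : L)
    (hpq : p = 8 * q + 3) (hr : r ^ 2 = 2) : 2 ^ (2 * q) * (r * (1 + r) ^ (4 * q + 2)) = (-1) ^ q := by
  have h2 : (2 : L) ≠ 0 := by
    intro h
    have h1 : ((2 : ℕ) : L) = 0 := by exact_mod_cast h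
    rw [CharP.cast_eq_zero_iff L p] at h1
    have := Nat.le_of_dvd (by norm_num) h1
    omega
  obtain ⟨s, hs⟩ := IsAlgClosed.exists_pow_nat_eq (-2 : L) (n := 2) (by norm_num)
  set z : L := (r + s) / 2 with hz
  have hz2 : 2 * z = r + s := by rw [hz]; field_simp
  have hz1 : z ^ 2 + 1 = r * z := by
    have : 4 * (z ^ 2 + 1) = 4 * (r * z) := by
      have e : 4 * (z ^ 2 + 1) - 4 * (r * z) = (2 * z) ^ 2 + 4 - 2 * r * (2 * z) := by ring
      rw [← sub_eq_zero, e, hz2]
      linear_combination hs - hr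
    have h4 : (4 : L) ≠ 0 := by
      have e : (4 : L) = 2 * 2 := by norm_num
      rw [e]
      exact mul_ne_zero h2 h2
    exact mul_left_cancel₀ h4 this
  have hz4 : z ^ 4 = -1 := by
    linear_combination (z ^ 2 + 1 + r * z) * hz1 + z ^ 2 * hr
  have hz0 : z ≠ 0 := by
    intro h
    rw [h] at hz4
    norm_num at hz4
  have hz4q : z ^ (4 * q) = (-1) ^ q := by rw [pow_mul, hz4]
  have hz8q : z ^ (8 * q) = 1 := by
    rw [show 8 * q = 4 * q * 2 by ring, pow_mul, hz4q, ← pow_mul, mul_comm q 2, pow_mul]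
    norm_num
  have hzp : z ^ p = z ^ 3 := by rw [hpq, pow_add, hz8q, one_mul]
  have h1z : (1 + z) ^ (p + 1) = r * z ^ 2 := by
    rw [pow_succ, add_pow_char, one_pow, hzp]
    linear_combination hz4 + z * hz1
  have hsq : (r * (1 + r)) * z = (1 + z) ^ 2 := by
    linear_combination z * hr - hz1
  have h3 : (r * (1 + r)) ^ (4 * q + 2) * z ^ (4 * q + 2) = r * z ^ 2 := by
    rw [← mul_pow, hsq, ← pow_mul, ← h1z, hpq]
    congr 1
    ring
  have h4 : (r * (1 + r)) ^ (4 * q + 2) * (-1) ^ q = r := by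
    rw [pow_add z, hz4q] at h3
    have hz20 : z ^ 2 ≠ 0 := pow_ne_zero _ hz0
    apply mul_right_cancel₀ hz20
    linear_combination h3
  have h5 : r ^ (4 * q + 2) = 2 * 2 ^ (2 * q) := by
    rw [show 4 * q + 2 = 2 * (2 * q + 1) by ring, pow_mul, hr, pow_succ]
    ring
  rw [mul_pow, h5] at h4
  have h6 : ((-1 : L) ^ q) * (-1) ^ q = 1 := by
    rw [← mul_pow]
    norm_num
  apply mul_left_cancel₀ h2
  linear_combination (-1) ^ q * r * h4 + (-1) ^ q * hr -
    2 * 2 ^ (2 * q) * (1 + r) ^ (4 * q + 2) * r * h6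

/-- job SN3 -/
theorem sn3 : S_SN3 := by
  intro p q hp K _ _ r hpq hr
  have hinj := (algebraMap K (AlgebraicClosure K)).injective
  have : CharP (AlgebraicClosure K) p := charP_of_injective_algebraMap hinj p
  apply hinj
  have h := sn3_aux p q (AlgebraicClosure K) (algebraMap K (AlgebraicClosure K) r) hpq (by
    rw [← map_pow, hr, map_ofNat])
  simp only [map_mul, map_pow, map_add, map_one, map_neg, map_ofNat]
  exact h

end Pool.Agent.Q299.E8
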