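import Pool.Agent.Q267.E8.Stm2

set_option autoImplicit false

/-!
Project E8 (helper267), job RS (helper299).
-/

namespace Pool.Agent.Q299.E8

open Finset Pool.Agent.Q267.CDE Pool.Agent.Q267.MW Pool.Agent.Q267.E8

/-- the companion Pell numbers in a ring with `r² = 2` -/
theorem qn_eq (S : Type) [CommRing S] (r : S) (hr : r ^ 2 = 2) :
    ∀ k : ℕ, ((Qn k : ℤ) : S) = (1 + r) ^ k + (1 - r) ^ k := by
  have h : ∀ k : ℕ, ((Qn k : ℤ) : S) = (1 + r) ^ k + (1 - r) ^ k ∧
      ((Qn (k + 1) : ℤ) : S) = (1 + r) ^ (k + 1) + (1 - r) ^ (k + 1) := by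
    intro k
    induction k with
    | zero =>
      constructor
      · show ((2 : ℤ) : S) = _
        push_cast
        ring
      · show ((2 : ℤ) : S) = _
        push_cast
        ring
    | succ k ih =>
      refine ⟨ih.2, ?_⟩
      show ((2 * Qn (k + 1) + Qn k : ℤ) : S) = _
      push_cast
      rw [ih.1, ih.2]
      linear_combination (-(1 + r) ^ k - (1 - r) ^ k) * hr
  exact fun k => (h k).1

/-- the numerator -/
def num (p : ℕ) : ℤ := ∑ k ∈ range p, Qn k * ((-1) ^ k * 8 ^ (p - k) * ((k.centralBinom : ℕ) : ℤ) ^ 2)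

theorem S0_eq (p : ℕ) : S0 p = (num p : ℚ) / ((8 ^ p : ℕ) : ℚ) := by
  rw [eq_div_iff (by positivity)]
  unfold S0 num
  rw [Finset.sum_mul]
  push_cast
  refine Finset.sum_congr rfl fun k hk => ?_
  have hk' : k ≤ p := (mem_range.1 hk).le
  have h1 : (8 : ℚ) ^ p = 8 ^ k * 8 ^ (p - k) := by rw [← pow_add]; congr 1; omega
  have h2 : (-8 : ℚ) ^ k = (-1) ^ k * 8 ^ k := by rw [← mul_pow]; norm_num
  have h3 : ((-1 : ℚ) ^ k) * (-1) ^ k = 1 := by rw [← mul_pow]; norm_num
  rw [h1, h2, Nat.centralBinom]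
  field_simp
  linear_combination (-((Qn k : ℚ) * (((2 * k).choose k : ℕ) : ℚ) ^ 2)) * h3

theorem num_eq (cb : S_CB) (p m : ℕ) [hp : Fact p.Prime] (S : Type) [CommRing S] [Algebra (R p) S] (r : S)
    (hpm : p = 2 * m + 1) (hr : r ^ 2 = 2) :
    ((num p : ℤ) : S) = (Ff m (-2 * (1 + r)) + Ff m (-2 * (1 - r))) * 8 ^ p := by
  unfold num
  have h0 : range (m + 1) ⊆ range p := by
    intro k hk
    rw [mem_range] at hk ⊢
    omega
  rw [Int.cast_sum, ← Finset.sum_subset h0]
  · unfold Ff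
    rw [← Finset.sum_add_distrib, Finset.sum_mul]
    refine Finset.sum_congr rfl fun k hk => ?_
    have hk' : k ≤ m := Nat.lt_succ_iff.1 (mem_range.1 hk)
    have h1 := congrArg (algebraMap (R p) S) ((cb p m k hpm).1 hk')
    simp only [map_mul, map_pow, map_natCast, map_neg, map_one, map_ofNat] at h1
    have h2 : (8 : S) ^ p = 8 ^ k * 8 ^ (p - k) := by rw [← pow_add]; congr 1; omega
    have h3 : ((-1 : S) ^ k) * (-1) ^ k = 1 := by rw [← mul_pow]; norm_num
    have h4 : (16 : S) ^ k = 8 ^ k * 2 ^ k := by rw [← mul_pow]; norm_num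
    have h5 : (-2 * (1 + r)) ^ k = (-1) ^ k * 2 ^ k * (1 + r) ^ k := by
      rw [← mul_pow, ← mul_pow]; norm_num
    have h6 : (-2 * (1 - r)) ^ k = (-1) ^ k * 2 ^ k * (1 - r) ^ k := by
      rw [← mul_pow, ← mul_pow]; norm_num
    push_cast
    rw [qn_eq S r hr k, h1, h4, h5, h6, h2]
    ring
  · intro k hk hk'
    rw [mem_range] at hk hk'
    have h1 := congrArg (algebraMap (R p) S) ((cb p m k hpm).2 (by omega) hk)
    simp only [map_pow, map_natCast, map_zero] at h1
    push_cast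
    rw [h1]
    ring

/-- job RS -/
theorem rs : S_CB → S_RS := by
  intro cb p m hp S _ _ r c hpm hr hinj hc
  refine ⟨num p, 8 ^ p, ?_, S0_eq p, ?_⟩
  · intro h
    have h1 : p ∣ 2 ^ 3 := by
      have := hp.out.dvd_of_dvd_pow h
      norm_num at this ⊢
      exact this
    have h2 := hp.out.dvd_of_dvd_pow h1
    have h3 := Nat.le_of_dvd (by norm_num) h2
    have h4 := hp.out.two_le
    omega
  · apply hinj
    have h8 : algebraMap (R p) S ((8 ^ p : ℕ) : R p) = 8 ^ p := by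
      rw [map_natCast]
      push_cast
      rfl
    rw [map_intCast, num_eq cb p m S r hpm hr, map_mul, hc, h8]

end Pool.Agent.Q299.E8
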